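import Pool.Agent.H985R3.IL.IL1
import Pool.Agent.H985R3.IL.IL3
import Pool.Agent.H985R3.IL.IL4
import Pool.Agent.H985R3.TA.STA
import Pool.Agent.H934R3.SL.SL
import Pool.Agent.H934R3.D74.T1
import Pool.Agent.H934R3.D74.T2
import Pool.Agent.H934R3.D74.T3
import Pool.Agent.H934R3.D74.T5

/-!
# The length of the interface of critical bond percolation (`q = 1`)

The rectangle is `[0, m + 1/2] × [0, k + 1/2]` in lattice units.  The number of medial edges of
the interface has mean of order `max m k * (min m k) ^ (3/4)`, and it is smaller than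
`x * (min m k) ^ (7/4)` with probability at most `C x ^ a`.  The model is defined in
`Pool.Agent.H985R2.BTDefs`, and the length and the mean in `Pool.Agent.H985R3.IL.Defs`.
-/

namespace Pool.Agent.Results.MP_216314_pr.InterfaceLength

open H985BT H985IL

theorem result :
    (∃ c C : ℝ, 0 < c ∧ 0 < C ∧ ∀ m k : ℕ, 1 ≤ m → 1 ≤ k →
      c * (max m k : ℕ) * ((min m k : ℕ) : ℝ) ^ (3/4 : ℝ) ≤
          rcE 1 m k (fun ω => (len m k ω : ℝ)) ∧
        rcE 1 m k (fun ω => (len m k ω : ℝ)) ≤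
          C * (max m k : ℕ) * ((min m k : ℕ) : ℝ) ^ (3/4 : ℝ)) ∧
    ∃ C a : ℝ, 0 < C ∧ 0 < a ∧ ∀ m k : ℕ, 1 ≤ m → 1 ≤ k → ∀ x : ℝ, 0 < x → x ≤ 1 →
      rcP 1 m k (fun ω => (len m k ω : ℝ) < x * ((min m k : ℕ) : ℝ) ^ (7/4 : ℝ)) ≤
        C * x ^ a := by
  refine ⟨?_, len_tail H985T.st_A H934SL.st_L (H934F.t5 H934F.t1c H934F.t2 H934F.t3)⟩
  obtain ⟨c, hc, h1⟩ := len_lower H934SL.st_L
  obtain ⟨C, hC, h2⟩ := len_upper H985T.st_A
  exact ⟨c, C, hc, hC, fun m k hm hk => ⟨h1 m k hm hk, h2 m k hm hk⟩⟩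

end Pool.Agent.Results.MP_216314_pr.InterfaceLength
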