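import Pool.Agent.H934R2.Expl.Whole

/-!
Critical bond percolation on `δ ℤ²` in a rectangle `D = (-A, B) × (0, H)`, with the counterclockwise
boundary arc from `a = t + i H` to `b = 0` wired and the other one dual-wired. Every weak limit, as
`δ → 0`, of the law of the trace of the exploration path (for the Hausdorff metric on nonempty
compact sets) meets the boundary of `D` in a set of Hausdorff dimension exactly `2 / 3`, the value
of chordal SLE₆, already in every neighbourhood of `b`, and meets a boundary interval of radius `r`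
at distance `x` from `b` with probability of order `(r / x) ^ (1 / 3)`. Such weak limits exist
along a subsequence of every sequence of meshes.

Definitions (in `Pool.Agent.H934R2.Expl.Model`): `Rect` (the domain), `pt`, `Rect.verts`,
`Rect.edges` (the discrete domain), `Rect.wired`, `Rect.outer` (boundary condition), `Rect.clu`,
`Rect.dclu` (the two clusters), `Rect.path` (trace of the exploration path), `Rect.law` (its law,
all configurations of the edges being equally likely).
-/

namespace Pool.Agent.Results.MP_216314_pr.TouchingDimension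

open MeasureTheory TopologicalSpace Filter Topology H934E

theorem result :
    (∀ (R : Rect) (δ : ℕ → ℝ) (hδ : ∀ i, 0 < δ i), Tendsto δ atTop (𝓝 0) →
      ∃ φ : ℕ → ℕ, StrictMono φ ∧ ∃ μ : ProbabilityMeasure (NonemptyCompacts ℂ),
        Tendsto (fun i => R.law (hδ (φ i))) atTop (𝓝 μ)) ∧
    ∃ c C : ℝ, 0 < c ∧ 0 < C ∧
      ∀ (R : Rect) (δ : ℕ → ℝ) (hδ : ∀ i, 0 < δ i), Tendsto δ atTop (𝓝 0) →
      ∀ μ : ProbabilityMeasure (NonemptyCompacts ℂ),
        Tendsto (fun i => R.law (hδ i)) atTop (𝓝 μ) →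
        (∀ᵐ (K : NonemptyCompacts ℂ) ∂(μ : Measure (NonemptyCompacts ℂ)),
          dimH ((K : Set ℂ) ∩ frontier R.D) = 2 / 3 ∧
          ∀ x : ℝ, 0 < x →
            dimH {y : ℝ | 0 ≤ y ∧ y < x ∧ y ≤ R.B ∧ (y : ℂ) ∈ K} = 2 / 3) ∧
        ∀ x r : ℝ, 0 < r → r ≤ x → 8 * x ≤ min R.A (min R.B R.H) →
          c * (r / x) ^ ((1 : ℝ) / 3) ≤
            (μ : Measure (NonemptyCompacts ℂ)).real
              {K | ∃ y : ℝ, x - r ≤ y ∧ y ≤ x + r ∧ (y : ℂ) ∈ K} ∧
          (μ : Measure (NonemptyCompacts ℂ)).real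
              {K | ∃ y : ℝ, x - r ≤ y ∧ y ≤ x + r ∧ (y : ℂ) ∈ K} ≤
            C * (r / x) ^ ((1 : ℝ) / 3) := by
  refine ⟨fun R δ hδ hlim => R.exists_limit hδ hlim, ?_⟩
  obtain ⟨c, C, hc, hC, h⟩ := Rect.HI_bounds
  refine ⟨c, C, hc, hC, ?_⟩
  intro R δ hδ hlim μ hμ
  constructor
  · exact R.ae_frontier hδ hlim hμ
  · intro x r hr hrx hx
    have hb := h R hδ hlim hμ x r hr hrx hx
    have e : {K : NonemptyCompacts ℂ | ∃ y : ℝ, x - r ≤ y ∧ y ≤ x + r ∧ (y : ℂ) ∈ K} =
        Rect.HI x r := by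
      ext K
      simp only [Rect.HI, touch, Set.mem_ofPred_eq]
      constructor
      · rintro ⟨y, h1, h2, h3⟩; exact ⟨y, h3, h1, h2⟩
      · rintro ⟨y, h3, h1, h2⟩; exact ⟨y, h1, h2, h3⟩
    rw [e]
    have hne : (μ : Measure (NonemptyCompacts ℂ)) (Rect.HI x r) ≠ ⊤ := measure_ne_top _ _
    have hx0 : 0 < x := hr.trans_le hrx
    constructor
    · exact (ENNReal.ofReal_le_iff_le_toReal hne).mp hb.1
    · exact ENNReal.toReal_le_of_le_ofReal (by positivity) hb.2

end Pool.Agent.Results.MP_216314_pr.TouchingDimension
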