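import Pool.Agent.H934R3.D74.Asm
import Pool.Agent.H934R3.SL.SL
import Pool.Agent.H985R3.TA.STA

/-!
Critical bond percolation on `δ ℤ²` in a rectangle `D = (-A, B) × (0, H)`, with the counterclockwise
boundary arc from `a = t + i H` to `b = 0` wired and the other one dual-wired. Every weak limit, as
`δ → 0`, of the law of the trace of the exploration path (for the Hausdorff metric on nonempty
compact sets) is almost surely a set of Hausdorff dimension exactly `7 / 4`, the dimension of
SLE₆. Such weak limits exist along a subsequence of every sequence of meshes.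

Definitions (in `Pool.Agent.H934R2.Expl.Model`): `Rect` (the domain), `pt`, `Rect.verts`,
`Rect.edges` (the discrete domain), `Rect.wired`, `Rect.outer` (boundary condition), `Rect.clu`,
`Rect.dclu` (the two clusters), `Rect.path` (trace of the exploration path), `Rect.law` (its law,
all configurations of the edges being equally likely).
-/

namespace Pool.Agent.Results.MP_216314_pr.TraceDimension

open MeasureTheory TopologicalSpace Filter Topology H934E

theorem result :
    (∀ (R : Rect) (δ : ℕ → ℝ) (hδ : ∀ i, 0 < δ i), Tendsto δ atTop (𝓝 0) →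
      ∃ φ : ℕ → ℕ, StrictMono φ ∧ ∃ μ : ProbabilityMeasure (NonemptyCompacts ℂ),
        Tendsto (fun i => R.law (hδ (φ i))) atTop (𝓝 μ)) ∧
    ∀ (R : Rect) (δ : ℕ → ℝ) (hδ : ∀ i, 0 < δ i), Tendsto δ atTop (𝓝 0) →
      ∀ μ : ProbabilityMeasure (NonemptyCompacts ℂ),
        Tendsto (fun i => R.law (hδ i)) atTop (𝓝 μ) →
        ∀ᵐ (K : NonemptyCompacts ℂ) ∂(μ : Measure (NonemptyCompacts ℂ)),
          dimH (K : Set ℂ) = 7 / 4 :=
  ⟨fun R δ hδ hlim => R.exists_limit hδ hlim,
    fun R δ hδ hlim μ hμ => H934F.dim74 H985T.st_A H934SL.st_L R δ hδ hlim μ hμ⟩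

end Pool.Agent.Results.MP_216314_pr.TraceDimension
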