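import Pool.Agent.H934R3.SL.SL
import Pool.Agent.H985R3.TA.STA
import Pool.Agent.H934R4.GL.Asm

/-!
Critical bond percolation on `δ ℤ²` in a rectangle `D = (-A, B) × (0, H)`, with the counterclockwise
boundary arc from `a = t + i H` to `b = 0` wired and the other one dual-wired. Every weak limit, as
`δ → 0`, of the law of the trace of the exploration path (for the Hausdorff metric on nonempty
compact sets) has the Green function of SLE₆ up to constants: for every `z` in `D` and
`0 < r < s / 2`, `s` the distance from `z` to the boundary, it meets the disc of radius `r` and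
centre `z` with probability comparable to `(r / s) ^ (1 / 4) * T z ^ (1 / 3)`, where the explicit
function `T` is comparable to the sine of the argument of the conformal map of `D` to the upper half
plane with `a ↦ ∞` and `b ↦ 0`; the constants depend on a bound for the aspect ratio only.

Definitions (in `Pool.Agent.H934R2.Expl.Model`): `Rect` (the domain), `pt`, `Rect.verts`,
`Rect.edges` (the discrete domain), `Rect.wired`, `Rect.outer` (boundary condition), `Rect.clu`,
`Rect.dclu` (the two clusters), `Rect.path` (trace of the exploration path), `Rect.law` (its law,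
all configurations of the edges being equally likely); in `Pool.Agent.H934R4.GL.Props`: `Rect.rx`,
`Rect.ry`, `Rect.rd` (distances to the sides), `Rect.ra`, `Rect.rb` (distances of `a`, `b` to the
corners), `Rect.Th` (the function `T`).
-/

namespace Pool.Agent.Results.MP_216314_pr.TraceGreenFunction

open MeasureTheory TopologicalSpace Filter Topology H934E

theorem result :
    ∀ k : ℝ, ∃ c C : ℝ, 0 < c ∧ 0 < C ∧
      ∀ (R : Rect), R.A + R.B ≤ k * R.H → R.H ≤ k * (R.A + R.B) →
      ∀ (δ : ℕ → ℝ) (hδ : ∀ i, 0 < δ i), Tendsto δ atTop (𝓝 0) →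
      ∀ μ : ProbabilityMeasure (NonemptyCompacts ℂ),
        Tendsto (fun i => R.law (hδ i)) atTop (𝓝 μ) →
        ∀ (z : ℂ) (r : ℝ), z ∈ R.D → 0 < r → 2 * r < R.rd z →
          c * ((r / R.rd z) ^ ((1 : ℝ) / 4) * R.Th z ^ ((1 : ℝ) / 3)) ≤
            (μ : Measure (NonemptyCompacts ℂ)).real
              {K : NonemptyCompacts ℂ | ((K : Set ℂ) ∩ Metric.closedBall z r).Nonempty} ∧
          (μ : Measure (NonemptyCompacts ℂ)).real
              {K : NonemptyCompacts ℂ | ((K : Set ℂ) ∩ Metric.closedBall z r).Nonempty} ≤
            C * ((r / R.rd z) ^ ((1 : ℝ) / 4) * R.Th z ^ ((1 : ℝ) / 3)) :=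
  H934G.st_gl H985T.st_A H934SL.st_L

end Pool.Agent.Results.MP_216314_pr.TraceGreenFunction
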